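import Mathlib

/-!
# Certificates for the inequality of the second mode
-/

set_option autoImplicit false

noncomputable section

namespace Pool.Agent.Work.MP_8826fd_mp.K2

/-- the numerator of `T 2 + T (-2) - 2 p M` for `q = -x`, `M = s` -/
def Fk (p x s : ℝ) : ℝ :=
  4 * p * s ^ 3 + 2 * x ^ 2 * s ^ 2 +
    s * (-12 * p ^ 3 - 24 * p ^ 3 * x - 8 * p * x ^ 2 + 6 * p * x ^ 3) +
    (p ^ 2 - x ^ 2) * (8 * p ^ 2 + 2 * x ^ 2)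

/-- consequence of the Riccati bound -/
def Hk (p x s : ℝ) : ℝ :=
  (s + 9 - 5 * p - x) * (s ^ 2 + s - p - x) - 8 * (s * (2 * p + x - 1) + p + x)

/-- consequence of the Riccati bound -/
def Ek (p x s : ℝ) : ℝ := (s + 1) ^ 2 - (5 * p + x - 8) * (s + 1) - 8 * (2 * p + x - 1)

/-- a monomial -/
def tm (r w θ τ σ : ℝ) (t : ℕ × ℕ × ℕ × ℕ × ℕ × ℕ) : ℝ :=
  (t.1 : ℝ) * r ^ t.2.1 * w ^ t.2.2.1 * θ ^ t.2.2.2.1 * τ ^ t.2.2.2.2.1 * σ ^ t.2.2.2.2.2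

theorem sum_tm_nonneg (r w θ τ σ : ℝ) (hr : 0 ≤ r) (hw : 0 ≤ w) (hθ : 0 ≤ θ) (hτ : 0 ≤ τ)
    (hσ : 0 ≤ σ) (L : List (ℕ × ℕ × ℕ × ℕ × ℕ × ℕ)) : 0 ≤ (L.map (tm r w θ τ σ)).sum := by
  apply List.sum_nonneg
  intro x hx
  obtain ⟨t, -, rfl⟩ := List.mem_map.1 hx
  unfold tm
  positivity

/-- list of monomials -/
def L_cU1 : List (ℕ × ℕ × ℕ × ℕ × ℕ × ℕ) :=
   [(319, 1, 4, 0, 4, 0), (1276, 1, 4, 1, 3, 0), (1914, 1, 4, 2, 2, 0), (1276, 1, 4, 3, 1, 0),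
    (319, 1, 4, 4, 0, 0), (1756, 2, 3, 0, 4, 0), (7024, 2, 3, 1, 3, 0), (10616, 2, 3, 2, 2, 0),
    (7184, 2, 3, 3, 1, 0), (1836, 2, 3, 4, 0, 0), (3354, 3, 2, 0, 4, 0), (13416, 3, 2, 1, 3, 0),
    (20284, 3, 2, 2, 2, 0), (13736, 3, 2, 3, 1, 0), (3514, 3, 2, 4, 0, 0), (2716, 4, 1, 0, 4, 0),
    (11344, 4, 1, 1, 3, 0), (17696, 4, 1, 2, 2, 0), (12104, 4, 1, 3, 1, 0),
    (3016, 4, 1, 4, 0, 0), (799, 5, 0, 0, 4, 0), (3916, 5, 0, 1, 3, 0), (6834, 5, 0, 2, 2, 0),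
    (4936, 5, 0, 3, 1, 0), (1199, 5, 0, 4, 0, 0), (480, 1, 3, 0, 3, 1), (1440, 1, 3, 1, 2, 1),
    (1440, 1, 3, 2, 1, 1), (480, 1, 3, 3, 0, 1), (1920, 2, 2, 0, 3, 1), (5760, 2, 2, 1, 2, 1),
    (5840, 2, 2, 2, 1, 1), (2000, 2, 2, 3, 0, 1), (2400, 3, 1, 0, 3, 1), (7200, 3, 1, 1, 2, 1),
    (7320, 3, 1, 2, 1, 1), (2520, 3, 1, 3, 0, 1), (960, 4, 0, 0, 3, 1), (3120, 4, 0, 1, 2, 1),
    (3400, 4, 0, 2, 1, 1), (1180, 4, 0, 3, 0, 1), (240, 1, 1, 0, 2, 2), (480, 1, 1, 1, 1, 2),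
    (240, 1, 1, 2, 0, 2), (360, 2, 0, 0, 2, 2), (720, 2, 0, 1, 1, 2), (380, 2, 0, 2, 0, 2),
    (40, 1, 0, 0, 0, 3)]

theorem cU1 (r w θ τ σ : ℝ) (hr : 0 ≤ r) (hw : 0 ≤ w) (hθ : 0 ≤ θ) (hτ : 0 ≤ τ)
    (hσ : 0 ≤ σ) (e1 : τ = 1 - θ) (e2 : w = 1 - r) :
    0 ≤ Fk r (-(θ * r)) (r + 2 + σ) - r / 10 := by
  have h : 10 * (Fk r (-(θ * r)) (r + 2 + σ) - r / 10) =
      ((L_cU1).map (tm r w θ τ σ)).sum := by
    simp only [L_cU1, List.map_cons, List.map_nil, List.sum_cons, List.sum_nil, tm,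
      Nat.cast_ofNat, pow_zero, pow_one, mul_one]
    rw [e1, e2]
    unfold Fk
    ring
  have h2 := sum_tm_nonneg r w θ τ σ hr hw hθ hτ hσ L_cU1
  rw [← h] at h2
  exact nonneg_of_mul_nonneg_right h2 (by norm_num)

/-- list of monomials -/
def L_cU2 : List (ℕ × ℕ × ℕ × ℕ × ℕ × ℕ) :=
   [(799, 0, 0, 0, 4, 0), (3916, 0, 0, 1, 3, 0), (6834, 0, 0, 2, 2, 0), (4936, 0, 0, 3, 1, 0),
    (1199, 0, 0, 4, 0, 0), (1279, 1, 0, 0, 4, 0), (8236, 1, 0, 1, 3, 0), (16474, 1, 0, 2, 2, 0),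
    (12576, 1, 0, 3, 1, 0), (2979, 1, 0, 4, 0, 0), (480, 2, 0, 0, 4, 0), (7200, 2, 0, 1, 3, 0),
    (17840, 2, 0, 2, 2, 0), (14680, 2, 0, 3, 1, 0), (3440, 2, 0, 4, 0, 0), (4320, 3, 0, 1, 3, 0),
    (12400, 3, 0, 2, 2, 0), (10760, 3, 0, 3, 1, 0), (2600, 3, 0, 4, 0, 0), (1680, 4, 0, 1, 3, 0),
    (4920, 4, 0, 2, 2, 0), (4380, 4, 0, 3, 1, 0), (1120, 4, 0, 4, 0, 0), (240, 5, 0, 1, 3, 0),
    (720, 5, 0, 2, 2, 0), (660, 5, 0, 3, 1, 0), (180, 5, 0, 4, 0, 0), (960, 0, 0, 0, 3, 1),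
    (3120, 0, 0, 1, 2, 1), (3400, 0, 0, 2, 1, 1), (1180, 0, 0, 3, 0, 1), (1440, 1, 0, 0, 3, 1),
    (5280, 1, 0, 1, 2, 1), (6280, 1, 0, 2, 1, 1), (2200, 1, 0, 3, 0, 1), (480, 2, 0, 0, 3, 1),
    (2880, 2, 0, 1, 2, 1), (4280, 2, 0, 2, 1, 1), (1520, 2, 0, 3, 0, 1), (960, 3, 0, 1, 2, 1),
    (1880, 3, 0, 2, 1, 1), (680, 3, 0, 3, 0, 1), (240, 4, 0, 1, 2, 1), (480, 4, 0, 2, 1, 1),
    (180, 4, 0, 3, 0, 1), (360, 0, 0, 0, 2, 2), (720, 0, 0, 1, 1, 2), (380, 0, 0, 2, 0, 2),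
    (480, 1, 0, 0, 2, 2), (960, 1, 0, 1, 1, 2), (520, 1, 0, 2, 0, 2), (120, 2, 0, 0, 2, 2),
    (240, 2, 0, 1, 1, 2), (140, 2, 0, 2, 0, 2), (40, 0, 0, 0, 0, 3), (40, 1, 0, 0, 0, 3)]

theorem cU2 (r w θ τ σ : ℝ) (hr : 0 ≤ r) (hw : 0 ≤ w) (hθ : 0 ≤ θ) (hτ : 0 ≤ τ)
    (hσ : 0 ≤ σ) (e1 : τ = 1 - θ) :
    0 ≤ Fk (1 + r) (-(θ * (1 + r))) ((1 + r) + 2 + σ) - (1 + r) / 10 := by
  have h : 10 * (Fk (1 + r) (-(θ * (1 + r))) ((1 + r) + 2 + σ) - (1 + r) / 10) =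
      ((L_cU2).map (tm r w θ τ σ)).sum := by
    simp only [L_cU2, List.map_cons, List.map_nil, List.sum_cons, List.sum_nil, tm,
      Nat.cast_ofNat, pow_zero, pow_one, mul_one]
    rw [e1]
    unfold Fk
    ring
  have h2 := sum_tm_nonneg r w θ τ σ hr hw hθ hτ hσ L_cU2
  rw [← h] at h2
  exact nonneg_of_mul_nonneg_right h2 (by norm_num)

/-- list of monomials -/
def L_cI : List (ℕ × ℕ × ℕ × ℕ × ℕ × ℕ) :=
   [(319, 1, 4, 0, 4, 0), (1276, 1, 4, 1, 3, 0), (1914, 1, 4, 2, 2, 0), (1276, 1, 4, 3, 1, 0),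
    (319, 1, 4, 4, 0, 0), (1756, 2, 3, 0, 4, 0), (7024, 2, 3, 1, 3, 0), (10616, 2, 3, 2, 2, 0),
    (7184, 2, 3, 3, 1, 0), (1836, 2, 3, 4, 0, 0), (3354, 3, 2, 0, 4, 0), (13416, 3, 2, 1, 3, 0),
    (20284, 3, 2, 2, 2, 0), (13736, 3, 2, 3, 1, 0), (3514, 3, 2, 4, 0, 0), (2716, 4, 1, 0, 4, 0),
    (10384, 4, 1, 1, 3, 0), (14816, 4, 1, 2, 2, 0), (9464, 4, 1, 3, 1, 0), (2296, 4, 1, 4, 0, 0),
    (799, 5, 0, 0, 4, 0), (2476, 5, 0, 1, 3, 0), (2514, 5, 0, 2, 2, 0), (976, 5, 0, 3, 1, 0),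
    (119, 5, 0, 4, 0, 0), (480, 1, 3, 0, 3, 1), (1440, 1, 3, 1, 2, 1), (1440, 1, 3, 2, 1, 1),
    (480, 1, 3, 3, 0, 1), (1920, 2, 2, 0, 3, 1), (5760, 2, 2, 1, 2, 1), (5840, 2, 2, 2, 1, 1),
    (2000, 2, 2, 3, 0, 1), (2400, 3, 1, 0, 3, 1), (7200, 3, 1, 1, 2, 1), (7320, 3, 1, 2, 1, 1),
    (2520, 3, 1, 3, 0, 1), (960, 4, 0, 0, 3, 1), (2640, 4, 0, 1, 2, 1), (2440, 4, 0, 2, 1, 1),
    (820, 4, 0, 3, 0, 1), (240, 1, 1, 0, 2, 2), (480, 1, 1, 1, 1, 2), (240, 1, 1, 2, 0, 2),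
    (360, 2, 0, 0, 2, 2), (720, 2, 0, 1, 1, 2), (380, 2, 0, 2, 0, 2), (40, 1, 0, 0, 0, 3)]

theorem cI (r w θ τ σ : ℝ) (hr : 0 ≤ r) (hw : 0 ≤ w) (hθ : 0 ≤ θ) (hτ : 0 ≤ τ)
    (hσ : 0 ≤ σ) (e1 : τ = 1 - θ) (e2 : w = 1 - r) :
    0 ≤ Fk r (θ * r) (r + 2 + σ) - r / 10 := by
  have h : 10 * (Fk r (θ * r) (r + 2 + σ) - r / 10) =
      ((L_cI).map (tm r w θ τ σ)).sum := by
    simp only [L_cI, List.map_cons, List.map_nil, List.sum_cons, List.sum_nil, tm,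
      Nat.cast_ofNat, pow_zero, pow_one, mul_one]
    rw [e1, e2]
    unfold Fk
    ring
  have h2 := sum_tm_nonneg r w θ τ σ hr hw hθ hτ hσ L_cI
  rw [← h] at h2
  exact nonneg_of_mul_nonneg_right h2 (by norm_num)

/-- list of monomials -/
def L_cII : List (ℕ × ℕ × ℕ × ℕ × ℕ × ℕ) :=
   [(349, 0, 5, 0, 4, 0), (1176, 0, 5, 1, 3, 0), (1304, 0, 5, 2, 2, 0), (656, 0, 5, 3, 1, 0),
    (159, 0, 5, 4, 0, 0), (1884, 1, 4, 0, 4, 0), (5916, 1, 4, 1, 3, 0), (5174, 1, 4, 2, 2, 0),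
    (1816, 1, 4, 3, 1, 0), (494, 1, 4, 4, 0, 0), (6146, 2, 3, 0, 4, 0), (19034, 2, 3, 1, 3, 0),
    (15446, 2, 3, 2, 2, 0), (4614, 2, 3, 3, 1, 0), (1416, 2, 3, 4, 0, 0), (13964, 3, 2, 0, 4, 0),
    (44656, 3, 2, 1, 3, 0), (41504, 3, 2, 2, 2, 0), (16416, 3, 2, 3, 1, 0),
    (4484, 3, 2, 4, 0, 0), (16431, 4, 1, 0, 4, 0), (53284, 4, 1, 1, 3, 0),
    (53666, 4, 1, 2, 2, 0), (23764, 4, 1, 3, 1, 0), (5991, 4, 1, 4, 0, 0), (7198, 5, 0, 0, 4, 0),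
    (23192, 5, 0, 1, 3, 0), (23828, 5, 0, 2, 2, 0), (10712, 5, 0, 3, 1, 0),
    (2558, 5, 0, 4, 0, 0), (440, 0, 4, 0, 3, 1), (1240, 0, 4, 1, 2, 1), (1200, 0, 4, 2, 1, 1),
    (460, 0, 4, 3, 0, 1), (1360, 1, 3, 0, 3, 1), (3620, 1, 3, 1, 2, 1), (3360, 1, 3, 2, 1, 1),
    (1580, 1, 3, 3, 0, 1), (1390, 2, 2, 0, 3, 1), (3050, 2, 2, 1, 2, 1), (2250, 2, 2, 2, 1, 1),
    (2030, 2, 2, 3, 0, 1), (1460, 3, 1, 0, 3, 1), (2860, 3, 1, 1, 2, 1), (1500, 3, 1, 2, 1, 1),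
    (2020, 3, 1, 3, 0, 1), (1200, 4, 0, 0, 3, 1), (2640, 4, 0, 1, 2, 1), (1680, 4, 0, 2, 1, 1),
    (1200, 4, 0, 3, 0, 1), (220, 0, 3, 0, 2, 2), (450, 0, 3, 1, 1, 2), (250, 0, 3, 2, 0, 2),
    (600, 1, 2, 0, 2, 2), (1280, 1, 2, 1, 1, 2), (780, 1, 2, 2, 0, 2), (320, 2, 1, 0, 2, 2),
    (840, 2, 1, 1, 1, 2), (680, 2, 1, 2, 0, 2), (160, 3, 0, 1, 1, 2), (240, 3, 0, 2, 0, 2),
    (30, 0, 2, 0, 0, 3), (60, 1, 1, 0, 0, 3)]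

theorem cII (r w θ τ σ : ℝ) (hr : 0 ≤ r) (hw : 0 ≤ w) (hθ : 0 ≤ θ) (hτ : 0 ≤ τ)
    (hσ : 0 ≤ σ) (e1 : τ = 1 - θ) (e2 : w = 1 - r) :
    0 ≤ Fk (1 + r) (θ * (1 + r)) ((1 + r) + 2 + σ) -
      (1 + r) * (3 * (1 + r) - 2) * Hk (1 + r) (θ * (1 + r)) ((1 + r) + 2 + σ) - (1 + r) / 10 := by
  have h : 10 * (Fk (1 + r) (θ * (1 + r)) ((1 + r) + 2 + σ) -
      (1 + r) * (3 * (1 + r) - 2) * Hk (1 + r) (θ * (1 + r)) ((1 + r) + 2 + σ) - (1 + r) / 10) =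
      ((L_cII).map (tm r w θ τ σ)).sum := by
    simp only [L_cII, List.map_cons, List.map_nil, List.sum_cons, List.sum_nil, tm,
      Nat.cast_ofNat, pow_zero, pow_one, mul_one]
    rw [e1, e2]
    unfold Fk Hk
    ring
  have h2 := sum_tm_nonneg r w θ τ σ hr hw hθ hτ hσ L_cII
  rw [← h] at h2
  exact nonneg_of_mul_nonneg_right h2 (by norm_num)

/-- list of monomials -/
def L_cIIb : List (ℕ × ℕ × ℕ × ℕ × ℕ × ℕ) :=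
   [(4498750, 0, 5, 0, 4, 0), (14495000, 0, 5, 1, 3, 0), (14892500, 0, 5, 2, 2, 0),
    (6695000, 0, 5, 3, 1, 0), (1598750, 0, 5, 4, 0, 0), (24503625, 1, 4, 0, 4, 0),
    (77654500, 1, 4, 1, 3, 0), (77321750, 1, 4, 2, 2, 0), (32774500, 1, 4, 3, 1, 0),
    (7523625, 1, 4, 4, 0, 0), (53273000, 2, 3, 0, 4, 0), (165997000, 2, 3, 1, 3, 0),
    (159785000, 2, 3, 2, 2, 0), (63183000, 2, 3, 3, 1, 0), (13790000, 2, 3, 4, 0, 0),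
    (57795350, 3, 2, 0, 4, 0), (176992400, 3, 2, 1, 3, 0), (164215700, 3, 2, 2, 2, 0),
    (59708400, 3, 2, 3, 1, 0), (12172950, 3, 2, 4, 0, 0), (31292610, 4, 1, 0, 4, 0),
    (94134600, 4, 1, 1, 3, 0), (83893220, 4, 1, 2, 2, 0), (27483400, 4, 1, 3, 1, 0),
    (5074550, 4, 1, 4, 0, 0), (6765385, 5, 0, 0, 4, 0), (19979652, 5, 0, 1, 3, 0),
    (17033126, 5, 0, 2, 2, 0), (4878368, 5, 0, 3, 1, 0), (766689, 5, 0, 4, 0, 0),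
    (150000, 0, 4, 0, 3, 1), (330000, 0, 4, 1, 2, 1), (210000, 0, 4, 2, 1, 1),
    (150000, 0, 4, 3, 0, 1), (715000, 1, 3, 0, 3, 1), (1553000, 1, 3, 1, 2, 1),
    (957000, 1, 3, 2, 1, 1), (647000, 1, 3, 3, 0, 1), (1257800, 2, 2, 0, 3, 1),
    (2693800, 2, 2, 1, 2, 1), (1601400, 2, 2, 2, 1, 1), (1036600, 2, 2, 3, 0, 1),
    (970880, 3, 1, 0, 3, 1), (2047600, 3, 1, 1, 2, 1), (1168920, 3, 1, 2, 1, 1),
    (731080, 3, 1, 3, 0, 1), (278080, 4, 0, 0, 3, 1), (576752, 4, 0, 1, 2, 1),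
    (314424, 4, 0, 2, 1, 1), (191444, 4, 0, 3, 0, 1), (800, 0, 2, 1, 1, 2),
    (1200, 0, 2, 2, 0, 2), (400, 1, 1, 0, 2, 2), (2560, 1, 1, 1, 1, 2), (3040, 1, 1, 2, 0, 2),
    (440, 2, 0, 0, 2, 2), (1848, 2, 0, 1, 1, 2), (1892, 2, 0, 2, 0, 2)]

theorem cIIb (r w θ τ σ : ℝ) (hr : 0 ≤ r) (hw : 0 ≤ w) (hθ : 0 ≤ θ) (hτ : 0 ≤ τ)
    (hσ : 0 ≤ σ) (e1 : τ = 1 - θ) (e2 : w = 1 / 5 - r) :
    0 ≤ Fk (2 + r) (θ * (2 + r)) ((2 + r) + 2 + σ) -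
      4 * (2 + r) * Hk (2 + r) (θ * (2 + r)) ((2 + r) + 2 + σ) - (2 + r) / 10 := by
  have h : 2 * (Fk (2 + r) (θ * (2 + r)) ((2 + r) + 2 + σ) -
      4 * (2 + r) * Hk (2 + r) (θ * (2 + r)) ((2 + r) + 2 + σ) - (2 + r) / 10) =
      ((L_cIIb).map (tm r w θ τ σ)).sum := by
    simp only [L_cIIb, List.map_cons, List.map_nil, List.sum_cons, List.sum_nil, tm,
      Nat.cast_ofNat, pow_zero, pow_one, mul_one]
    rw [e1, e2]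
    unfold Fk Hk
    ring
  have h2 := sum_tm_nonneg r w θ τ σ hr hw hθ hτ hσ L_cIIb
  rw [← h] at h2
  exact nonneg_of_mul_nonneg_right h2 (by norm_num)

/-- list of monomials -/
def L_cIIIa : List (ℕ × ℕ × ℕ × ℕ × ℕ × ℕ) :=
   [(126316025, 0, 6, 0, 7, 0), (842945367, 0, 6, 1, 6, 0), (2284223953, 0, 6, 2, 5, 0),
    (3263804775, 0, 6, 3, 4, 0), (2699141335, 0, 6, 4, 3, 0), (1365290905, 0, 6, 5, 2, 0),
    (440717167, 0, 6, 6, 1, 0), (78357433, 0, 6, 7, 0, 0), (1020377890, 1, 5, 0, 7, 0),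
    (6705335390, 1, 5, 1, 6, 0), (17847103490, 1, 5, 2, 5, 0), (24929775230, 1, 5, 3, 4, 0),
    (20019285470, 1, 5, 4, 3, 0), (9798144770, 1, 5, 5, 2, 0), (3111383710, 1, 5, 6, 1, 0),
    (564895170, 1, 5, 7, 0, 0), (3438915475, 2, 4, 0, 7, 0), (22238123325, 2, 4, 1, 6, 0),
    (58064352075, 2, 4, 2, 5, 0), (79098943725, 2, 4, 3, 4, 0), (61380526525, 2, 4, 4, 3, 0),
    (28836813075, 2, 4, 5, 2, 0), (8962392725, 2, 4, 6, 1, 0), (1672306675, 2, 4, 7, 0, 0),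
    (6197179500, 3, 3, 0, 7, 0), (39415636500, 3, 3, 1, 6, 0), (100855227500, 3, 3, 2, 5, 0),
    (133685260500, 3, 3, 3, 4, 0), (99723764500, 3, 3, 4, 3, 0), (44518227500, 3, 3, 5, 2, 0),
    (13443628500, 3, 3, 6, 1, 0), (2600675500, 3, 3, 7, 0, 0), (6306559375, 4, 2, 0, 7, 0),
    (39442710625, 4, 2, 1, 6, 0), (98840524375, 4, 2, 2, 5, 0), (127246140625, 4, 2, 3, 4, 0),
    (90764390625, 4, 2, 4, 3, 0), (38018659375, 4, 2, 5, 2, 0), (11036435625, 4, 2, 6, 1, 0),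
    (2240399375, 4, 2, 7, 0, 0), (3441031250, 5, 1, 0, 7, 0), (21165368750, 5, 1, 1, 6, 0),
    (51939131250, 5, 1, 2, 5, 0), (64874668750, 5, 1, 3, 4, 0), (44041768750, 5, 1, 4, 3, 0),
    (17049731250, 5, 1, 5, 2, 0), (4682168750, 5, 1, 6, 1, 0), (1014331250, 5, 1, 7, 0, 0),
    (787453125, 6, 0, 0, 7, 0), (4766296875, 6, 0, 1, 6, 0), (11461078125, 6, 0, 2, 5, 0),
    (13891546875, 6, 0, 3, 4, 0), (8948296875, 6, 0, 4, 3, 0), (3148453125, 6, 0, 5, 2, 0),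
    (798421875, 6, 0, 6, 1, 0), (188953125, 6, 0, 7, 0, 0), (13798400, 0, 4, 0, 7, 1),
    (68292224, 0, 4, 1, 6, 1), (123417536, 0, 4, 2, 5, 1), (93536960, 0, 4, 3, 4, 1),
    (22872960, 0, 4, 4, 3, 1), (6955520, 0, 4, 5, 2, 1), (15516864, 0, 4, 6, 1, 1),
    (6821056, 0, 4, 7, 0, 1), (84794880, 1, 3, 0, 7, 1), (442823680, 1, 3, 1, 6, 1),
    (897144320, 1, 3, 2, 5, 1), (907367680, 1, 3, 3, 4, 1), (546680320, 1, 3, 4, 3, 1),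
    (305615360, 1, 3, 5, 2, 1), (178316800, 1, 3, 6, 1, 1), (51129600, 1, 3, 7, 0, 1),
    (196979200, 2, 2, 0, 7, 1), (1074873600, 2, 2, 1, 6, 1), (2359625600, 2, 2, 2, 5, 1),
    (2763177600, 2, 2, 3, 4, 1), (2059654400, 2, 2, 4, 3, 1), (1209612800, 2, 2, 5, 2, 1),
    (565232000, 2, 2, 6, 1, 1), (133827200, 2, 2, 7, 0, 1), (204352000, 3, 1, 0, 7, 1),
    (1155328000, 3, 1, 1, 6, 1), (2686848000, 3, 1, 2, 5, 1), (3430304000, 3, 1, 3, 4, 1),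
    (2806976000, 3, 1, 4, 3, 1), (1669056000, 3, 1, 5, 2, 1), (705664000, 3, 1, 6, 1, 1),
    (149152000, 3, 1, 7, 0, 1), (79680000, 4, 0, 0, 7, 1), (463440000, 4, 0, 1, 6, 1),
    (1124280000, 4, 0, 2, 5, 1), (1516920000, 4, 0, 3, 4, 1), (1304880000, 4, 0, 4, 3, 1),
    (777600000, 4, 0, 5, 2, 1), (309720000, 4, 0, 6, 1, 1), (60600000, 4, 0, 7, 0, 1),
    (991232, 0, 2, 1, 6, 2), (6443008, 0, 2, 2, 5, 2), (17346560, 0, 2, 3, 4, 2),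
    (24780800, 0, 2, 4, 3, 2), (19824640, 0, 2, 5, 2, 2), (8425472, 0, 2, 6, 1, 2),
    (1486848, 0, 2, 7, 0, 2), (1802240, 1, 1, 0, 7, 2), (15319040, 1, 1, 1, 6, 2),
    (55418880, 1, 1, 2, 5, 2), (110387200, 1, 1, 3, 4, 2), (130662400, 1, 1, 4, 3, 2),
    (91914240, 1, 1, 5, 2, 2), (35594240, 1, 1, 6, 1, 2), (5857280, 1, 1, 7, 0, 2),
    (2457600, 2, 0, 0, 7, 2), (19046400, 2, 0, 1, 6, 2), (63590400, 2, 0, 2, 5, 2),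
    (118272000, 2, 0, 3, 4, 2), (132096000, 2, 0, 4, 3, 2), (88473600, 2, 0, 5, 2, 2),
    (32870400, 2, 0, 6, 1, 2), (5222400, 2, 0, 7, 0, 2)]

theorem cIIIa (r w θ τ σ : ℝ) (hr : 0 ≤ r) (hw : 0 ≤ w) (hθ : 0 ≤ θ) (hτ : 0 ≤ τ)
    (hσ : 0 ≤ σ) (e1 : τ = 1 - θ) (e2 : w = 4 / 5 - r) :
    0 ≤ Fk (11 / 5 + r) (θ * (11 / 5 + r)) ((11 / 5 + r) ^ 2 - (11 / 5 + r) + θ * (11 / 5 + r) + σ) -
      (4 * (11 / 5 + r) * ((11 / 5 + r) ^ 2 - (11 / 5 + r) + θ * (11 / 5 + r) + σ + 1) +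
        1 / 5 * (4 * (11 / 5 + r) * (5 * (11 / 5 + r) + θ * (11 / 5 + r) - 8) + 2 * (θ * (11 / 5 + r)) ^ 2 - 12 * (11 / 5 + r))) *
      Ek (11 / 5 + r) (θ * (11 / 5 + r)) ((11 / 5 + r) ^ 2 - (11 / 5 + r) + θ * (11 / 5 + r) + σ) - (11 / 5 + r) / 10 := by
  have h : 40960 * (Fk (11 / 5 + r) (θ * (11 / 5 + r)) ((11 / 5 + r) ^ 2 - (11 / 5 + r) + θ * (11 / 5 + r) + σ) -
      (4 * (11 / 5 + r) * ((11 / 5 + r) ^ 2 - (11 / 5 + r) + θ * (11 / 5 + r) + σ + 1) +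
        1 / 5 * (4 * (11 / 5 + r) * (5 * (11 / 5 + r) + θ * (11 / 5 + r) - 8) + 2 * (θ * (11 / 5 + r)) ^ 2 - 12 * (11 / 5 + r))) *
      Ek (11 / 5 + r) (θ * (11 / 5 + r)) ((11 / 5 + r) ^ 2 - (11 / 5 + r) + θ * (11 / 5 + r) + σ) - (11 / 5 + r) / 10) =
      ((L_cIIIa).map (tm r w θ τ σ)).sum := by
    simp only [L_cIIIa, List.map_cons, List.map_nil, List.sum_cons, List.sum_nil, tm,
      Nat.cast_ofNat, pow_zero, pow_one, mul_one]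
    rw [e1, e2]
    unfold Fk Ek
    ring
  have h2 := sum_tm_nonneg r w θ τ σ hr hw hθ hτ hσ L_cIIIa
  rw [← h] at h2
  exact nonneg_of_mul_nonneg_right h2 (by norm_num)

/-- list of monomials -/
def L_cIIIba : List (ℕ × ℕ × ℕ × ℕ × ℕ × ℕ) :=
   [(56157, 0, 6, 0, 10, 0), (521610, 0, 6, 1, 9, 0), (2133765, 0, 6, 2, 8, 0),
    (5065560, 0, 6, 3, 7, 0), (7750350, 0, 6, 4, 6, 0), (8044884, 0, 6, 5, 5, 0),
    (5830110, 0, 6, 6, 4, 0), (2998440, 0, 6, 7, 3, 0), (1090485, 0, 6, 8, 2, 0),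
    (262050, 0, 6, 9, 1, 0), (31677, 0, 6, 10, 0, 0), (565180, 1, 5, 0, 10, 0),
    (5185960, 1, 5, 1, 9, 0), (20918820, 1, 5, 2, 8, 0), (48830760, 1, 5, 3, 7, 0),
    (73157280, 1, 5, 4, 6, 0), (73946040, 1, 5, 5, 5, 0), (51873360, 1, 5, 6, 4, 0),
    (25756920, 1, 5, 7, 3, 0), (9112260, 1, 5, 8, 2, 0), (2174080, 1, 5, 9, 1, 0),
    (266860, 1, 5, 10, 0, 0), (2368985, 2, 4, 0, 10, 0), (21462050, 2, 4, 1, 9, 0),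
    (85284865, 2, 4, 2, 8, 0), (195425240, 2, 4, 3, 7, 0), (285852310, 2, 4, 4, 6, 0),
    (279902180, 2, 4, 5, 5, 0), (188400550, 2, 4, 6, 4, 0), (89161640, 2, 4, 7, 3, 0),
    (30302065, 2, 4, 8, 2, 0), (7158010, 2, 4, 9, 1, 0), (900345, 2, 4, 10, 0, 0),
    (5304240, 3, 3, 0, 10, 0), (47433600, 3, 3, 1, 9, 0), (185569680, 3, 3, 2, 8, 0),
    (416859520, 3, 3, 3, 7, 0), (593677600, 3, 3, 4, 6, 0), (559952640, 3, 3, 5, 5, 0),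
    (357548000, 3, 3, 6, 4, 0), (158122880, 3, 3, 7, 3, 0), (50460720, 3, 3, 8, 2, 0),
    (11728000, 3, 3, 9, 1, 0), (1536400, 3, 3, 10, 0, 0), (6701535, 4, 2, 0, 10, 0),
    (59158190, 4, 2, 1, 9, 0), (227800455, 4, 2, 2, 8, 0), (501225400, 4, 2, 3, 7, 0),
    (693368170, 4, 2, 4, 6, 0), (626155980, 4, 2, 5, 5, 0), (373724090, 4, 2, 6, 4, 0),
    (149532680, 4, 2, 7, 3, 0), (42737175, 4, 2, 8, 2, 0), (9619270, 4, 2, 9, 1, 0),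
    (1360095, 4, 2, 10, 0, 0), (4533652, 5, 1, 0, 10, 0), (39519320, 5, 1, 1, 9, 0),
    (149804940, 5, 1, 2, 8, 0), (322721240, 5, 1, 3, 7, 0), (432816320, 5, 1, 4, 6, 0),
    (371874504, 5, 1, 5, 5, 0), (203392720, 5, 1, 6, 4, 0), (69400840, 5, 1, 7, 3, 0),
    (15635340, 5, 1, 8, 2, 0), (3217920, 5, 1, 9, 1, 0), (550852, 5, 1, 10, 0, 0),
    (1282795, 6, 0, 0, 10, 0), (11046950, 6, 0, 1, 9, 0), (41236275, 6, 0, 2, 8, 0),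
    (86965400, 6, 0, 3, 7, 0), (112886450, 6, 0, 4, 6, 0), (91625340, 6, 0, 5, 5, 0),
    (44608450, 6, 0, 6, 4, 0), (11343400, 6, 0, 7, 3, 0), (958275, 6, 0, 8, 2, 0),
    (49950, 6, 0, 9, 1, 0), (58795, 6, 0, 10, 0, 0), (27840, 0, 4, 0, 10, 1),
    (235920, 0, 4, 1, 9, 1), (874440, 0, 4, 2, 8, 1), (1865880, 0, 4, 3, 7, 1),
    (2547720, 0, 4, 4, 6, 1)]

/-- list of monomials -/
def L_cIIIbb : List (ℕ × ℕ × ℕ × ℕ × ℕ × ℕ) :=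
   [(2361240, 0, 4, 5, 5, 1), (1564920, 0, 4, 6, 4, 1), (788040, 0, 4, 7, 3, 1),
    (310680, 0, 4, 8, 2, 1), (86520, 0, 4, 9, 1, 1), (12000, 0, 4, 10, 0, 1),
    (207200, 1, 3, 0, 10, 1), (1784960, 1, 3, 1, 9, 1), (6771120, 1, 3, 2, 8, 1),
    (14923440, 1, 3, 3, 7, 1), (21297360, 1, 3, 4, 6, 1), (20884080, 1, 3, 5, 5, 1),
    (14694960, 1, 3, 6, 4, 1), (7675920, 1, 3, 7, 3, 1), (2973840, 1, 3, 8, 2, 1),
    (775760, 1, 3, 9, 1, 1), (99680, 1, 3, 10, 0, 1), (580000, 2, 2, 0, 10, 1),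
    (5065440, 2, 2, 1, 9, 1), (19573760, 2, 2, 2, 8, 1), (44201440, 2, 2, 3, 7, 1),
    (65041760, 2, 2, 4, 6, 1), (66065440, 2, 2, 5, 5, 1), (48033440, 2, 2, 6, 4, 1),
    (25497760, 2, 2, 7, 3, 1), (9741440, 2, 2, 8, 2, 1), (2437760, 2, 2, 9, 1, 1),
    (297440, 2, 2, 10, 0, 1), (718240, 3, 1, 0, 10, 1), (6339200, 3, 1, 1, 9, 1),
    (24834000, 3, 1, 2, 8, 1), (57051600, 3, 1, 3, 7, 1), (85671600, 3, 1, 4, 6, 1),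
    (88907280, 3, 1, 5, 5, 1), (65797200, 3, 1, 6, 4, 1), (35142000, 3, 1, 7, 3, 1),
    (13263600, 3, 1, 8, 2, 1), (3223600, 3, 1, 9, 1, 1), (379040, 3, 1, 10, 0, 1),
    (330400, 4, 0, 0, 10, 1), (2938000, 4, 0, 1, 9, 1), (11619000, 4, 0, 2, 8, 1),
    (26997000, 4, 0, 3, 7, 1), (41055000, 4, 0, 4, 6, 1), (43129800, 4, 0, 5, 5, 1),
    (32193000, 4, 0, 6, 4, 1), (17199000, 4, 0, 7, 3, 1), (6417000, 4, 0, 8, 2, 1),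
    (1525000, 4, 0, 9, 1, 1), (174400, 4, 0, 10, 0, 1), (3840, 0, 2, 0, 10, 2),
    (41280, 0, 2, 1, 9, 2), (200160, 0, 2, 2, 8, 2), (576000, 0, 2, 3, 7, 2),
    (1088640, 0, 2, 4, 6, 2), (1411200, 0, 2, 5, 5, 2), (1270080, 0, 2, 6, 4, 2),
    (783360, 0, 2, 7, 3, 2), (316800, 0, 2, 8, 2, 2), (75840, 0, 2, 9, 1, 2),
    (8160, 0, 2, 10, 0, 2), (19840, 1, 1, 0, 10, 2), (208000, 1, 1, 1, 9, 2),
    (984000, 1, 1, 2, 8, 2), (2764800, 1, 1, 3, 7, 2), (5107200, 1, 1, 4, 6, 2),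
    (6478080, 1, 1, 5, 5, 2), (5712000, 1, 1, 6, 4, 2), (3456000, 1, 1, 7, 3, 2),
    (1372800, 1, 1, 8, 2, 2), (323200, 1, 1, 9, 1, 2), (34240, 1, 1, 10, 0, 2),
    (22400, 2, 0, 0, 10, 2), (232000, 2, 0, 1, 9, 2), (1084000, 2, 0, 2, 8, 2),
    (3008000, 2, 0, 3, 7, 2), (5488000, 2, 0, 4, 6, 2), (6876800, 2, 0, 5, 5, 2),
    (5992000, 2, 0, 6, 4, 2), (3584000, 2, 0, 7, 3, 2), (1408000, 2, 0, 8, 2, 2),
    (328000, 2, 0, 9, 1, 2), (34400, 2, 0, 10, 0, 2)]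

theorem cIIIb (r w θ τ σ : ℝ) (hr : 0 ≤ r) (hw : 0 ≤ w) (hθ : 0 ≤ θ) (hτ : 0 ≤ τ)
    (hσ : 0 ≤ σ) (e1 : τ = 1 - θ) (e2 : w = 2 - r) :
    0 ≤ Fk (3 + r) (θ * (3 + r)) ((3 + r) ^ 2 - (3 + r) + θ * (3 + r) + σ) -
      (4 * (3 + r) * ((3 + r) ^ 2 - (3 + r) + θ * (3 + r) + σ + 1) +
        1 / 2 * (4 * (3 + r) * (5 * (3 + r) + θ * (3 + r) - 8) + 2 * (θ * (3 + r)) ^ 2 - 12 * (3 + r))) *
      Ek (3 + r) (θ * (3 + r)) ((3 + r) ^ 2 - (3 + r) + θ * (3 + r) + σ) - (3 + r) / 10 := by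
  have h : 640 * (Fk (3 + r) (θ * (3 + r)) ((3 + r) ^ 2 - (3 + r) + θ * (3 + r) + σ) -
      (4 * (3 + r) * ((3 + r) ^ 2 - (3 + r) + θ * (3 + r) + σ + 1) +
        1 / 2 * (4 * (3 + r) * (5 * (3 + r) + θ * (3 + r) - 8) + 2 * (θ * (3 + r)) ^ 2 - 12 * (3 + r))) *
      Ek (3 + r) (θ * (3 + r)) ((3 + r) ^ 2 - (3 + r) + θ * (3 + r) + σ) - (3 + r) / 10) =
      ((L_cIIIba).map (tm r w θ τ σ)).sum +
        ((L_cIIIbb).map (tm r w θ τ σ)).sum := by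
    simp only [L_cIIIba, L_cIIIbb, List.map_cons, List.map_nil, List.sum_cons, List.sum_nil, tm,
      Nat.cast_ofNat, pow_zero, pow_one, mul_one]
    rw [e1, e2]
    unfold Fk Ek
    ring
  have h2 := sum_tm_nonneg r w θ τ σ hr hw hθ hτ hσ L_cIIIba
  have h3 := sum_tm_nonneg r w θ τ σ hr hw hθ hτ hσ L_cIIIbb
  have h4 := add_nonneg h2 h3
  rw [← h] at h4
  exact nonneg_of_mul_nonneg_right h4 (by norm_num)

/-- list of monomials -/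
def L_cIIIca : List (ℕ × ℕ × ℕ × ℕ × ℕ × ℕ) :=
   [(131399500000, 0, 6, 0, 8, 0), (871696000000, 0, 6, 1, 7, 0), (2375936000000, 0, 6, 2, 6, 0),
    (3390872000000, 0, 6, 3, 5, 0), (2645465000000, 0, 6, 4, 4, 0),
    (1040872000000, 0, 6, 5, 3, 0), (145936000000, 0, 6, 6, 2, 0), (1696000000, 0, 6, 7, 1, 0),
    (6399500000, 0, 6, 8, 0, 0), (806062990000, 1, 5, 0, 8, 0), (5347883920000, 1, 5, 1, 7, 0),
    (14580693720000, 1, 5, 2, 6, 0), (20823352440000, 1, 5, 3, 5, 0),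
    (16272259300000, 1, 5, 4, 4, 0), (6432977440000, 1, 5, 5, 3, 0),
    (924293720000, 1, 5, 6, 2, 0), (19408920000, 1, 5, 7, 1, 0), (40312990000, 1, 5, 8, 0, 0),
    (2060328410000, 2, 4, 0, 8, 0), (13670735880000, 2, 4, 1, 7, 0),
    (37283416580000, 2, 4, 2, 6, 0), (53282587460000, 2, 4, 3, 5, 0),
    (41705155700000, 2, 4, 4, 4, 0), (16565714960000, 2, 4, 5, 3, 0),
    (2437094580000, 2, 4, 6, 2, 0), (72705380000, 2, 4, 7, 1, 0), (105748410000, 2, 4, 8, 0, 0),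
    (2808704684000, 3, 3, 0, 8, 0), (18638234216000, 3, 3, 1, 7, 0),
    (50846050276000, 3, 3, 2, 6, 0), (72715211764000, 3, 3, 3, 5, 0),
    (57008225860000, 3, 3, 4, 4, 0), (22751056064000, 3, 3, 5, 3, 0),
    (3424363916000, 3, 3, 6, 2, 0), (130703876000, 3, 3, 7, 1, 0), (147861184000, 3, 3, 8, 0, 0),
    (2153781532800, 4, 2, 0, 8, 0), (14293690275600, 4, 2, 1, 7, 0),
    (39005559365400, 4, 2, 2, 6, 0), (55820572480800, 4, 2, 3, 5, 0),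
    (43834378788000, 4, 2, 4, 4, 0), (17575583842800, 4, 2, 5, 3, 0),
    (2704425996600, 4, 2, 6, 2, 0), (124529738400, 4, 2, 7, 1, 0), (116230654800, 4, 2, 8, 0, 0),
    (880844708680, 5, 1, 0, 8, 0), (5846377858400, 5, 1, 1, 7, 0),
    (15958781727280, 5, 1, 2, 6, 0), (22854329483540, 5, 1, 3, 5, 0),
    (17976196474960, 5, 1, 4, 4, 0), (7241204252120, 5, 1, 5, 3, 0),
    (1138286016160, 5, 1, 6, 2, 0), (60900782420, 5, 1, 7, 1, 0), (48703449400, 5, 1, 8, 0, 0),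
    (150102939900, 6, 0, 0, 8, 0), (996373838940, 6, 0, 1, 7, 0), (2720613778302, 6, 0, 2, 6, 0),
    (3898861747458, 6, 0, 3, 5, 0), (3071682147720, 6, 0, 4, 4, 0),
    (1243066953840, 6, 0, 5, 3, 0), (199487075790, 6, 0, 6, 2, 0), (12082460082, 6, 0, 7, 1, 0),
    (8499058608, 6, 0, 8, 0, 0), (123600000, 0, 4, 0, 8, 1), (918800000, 0, 4, 1, 7, 1),
    (2990800000, 0, 4, 2, 6, 1), (5614100000, 0, 4, 3, 5, 1)]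

/-- list of monomials -/
def L_cIIIcb : List (ℕ × ℕ × ℕ × ℕ × ℕ × ℕ) :=
   [(6714500000, 0, 4, 4, 4, 1), (5296600000, 0, 4, 5, 3, 1), (2715800000, 0, 4, 6, 2, 1),
    (831300000, 0, 4, 7, 1, 1), (116100000, 0, 4, 8, 0, 1), (506112000, 1, 3, 0, 8, 1),
    (3762896000, 1, 3, 1, 7, 1), (12250836000, 1, 3, 2, 6, 1), (22999772000, 1, 3, 3, 5, 1),
    (27509840000, 1, 3, 4, 4, 1), (21699272000, 1, 3, 5, 3, 1), (11123636000, 1, 3, 6, 2, 1),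
    (3403596000, 1, 3, 7, 1, 1), (475112000, 1, 3, 8, 0, 1), (777154800, 2, 2, 0, 8, 1),
    (5779042400, 2, 2, 1, 7, 1), (18818116400, 2, 2, 2, 6, 1), (35334472800, 2, 2, 3, 5, 1),
    (42266266000, 2, 2, 4, 4, 1), (33336848800, 2, 2, 5, 3, 1), (17085488400, 2, 2, 6, 2, 1),
    (5225770400, 2, 2, 7, 1, 1), (729108800, 2, 2, 8, 0, 1), (530380280, 3, 1, 0, 8, 1),
    (3944647360, 3, 1, 1, 7, 1), (12847092440, 3, 1, 2, 6, 1), (24126349000, 3, 1, 3, 5, 1),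
    (28861396400, 3, 1, 4, 4, 1), (22762582480, 3, 1, 5, 3, 1), (11663419160, 3, 1, 6, 2, 1),
    (3565996840, 3, 1, 7, 1, 1), (497287400, 3, 1, 8, 0, 1), (135737520, 4, 0, 0, 8, 1),
    (1009701264, 4, 0, 1, 7, 1), (3289013052, 4, 0, 2, 6, 1), (6177550134, 4, 0, 3, 5, 1),
    (7390472730, 4, 0, 4, 4, 1), (5828407500, 4, 0, 5, 3, 1), (2985767664, 4, 0, 6, 2, 1),
    (912522702, 4, 0, 7, 1, 1), (127190634, 4, 0, 8, 0, 1), (30000, 0, 2, 0, 8, 2),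
    (250000, 0, 2, 1, 7, 2), (915000, 0, 2, 2, 6, 2), (1920000, 0, 2, 3, 5, 2),
    (2525000, 0, 2, 4, 4, 2), (2130000, 0, 2, 5, 3, 2), (1125000, 0, 2, 6, 2, 2),
    (340000, 0, 2, 7, 1, 2), (45000, 0, 2, 8, 0, 2), (61600, 1, 1, 0, 8, 2),
    (513200, 1, 1, 1, 7, 2), (1877800, 1, 1, 2, 6, 2), (3939200, 1, 1, 3, 5, 2),
    (5179000, 1, 1, 4, 4, 2), (4367600, 1, 1, 5, 3, 2), (2306200, 1, 1, 6, 2, 2),
    (696800, 1, 1, 7, 1, 2), (92200, 1, 1, 8, 0, 2), (31620, 2, 0, 0, 8, 2),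
    (263364, 2, 0, 1, 7, 2), (963390, 2, 0, 2, 6, 2), (2020416, 2, 0, 3, 5, 2),
    (2655570, 2, 0, 4, 4, 2), (2238900, 2, 0, 5, 3, 2), (1181874, 2, 0, 6, 2, 2),
    (357000, 2, 0, 7, 1, 2), (47226, 2, 0, 8, 0, 2)]

theorem cIIIc (r w θ τ σ : ℝ) (hr : 0 ≤ r) (hw : 0 ≤ w) (hθ : 0 ≤ θ) (hτ : 0 ≤ τ)
    (hσ : 0 ≤ σ) (e1 : τ = 1 - θ) (e2 : w = 1 / 10 - r) :
    0 ≤ Fk (5 + r) (θ * (5 + r)) ((5 + r) ^ 2 - (5 + r) + θ * (5 + r) + σ) -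
      4 * (5 + r) * Hk (5 + r) (θ * (5 + r)) ((5 + r) ^ 2 - (5 + r) + θ * (5 + r) + σ) - (5 + r) / 10 := by
  have h : 1 * (Fk (5 + r) (θ * (5 + r)) ((5 + r) ^ 2 - (5 + r) + θ * (5 + r) + σ) -
      4 * (5 + r) * Hk (5 + r) (θ * (5 + r)) ((5 + r) ^ 2 - (5 + r) + θ * (5 + r) + σ) - (5 + r) / 10) =
      ((L_cIIIca).map (tm r w θ τ σ)).sum +
        ((L_cIIIcb).map (tm r w θ τ σ)).sum := by
    simp only [L_cIIIca, L_cIIIcb, List.map_cons, List.map_nil, List.sum_cons, List.sum_nil, tm,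
      Nat.cast_ofNat, pow_zero, pow_one, mul_one]
    rw [e1, e2]
    unfold Fk Hk
    ring
  have h2 := sum_tm_nonneg r w θ τ σ hr hw hθ hτ hσ L_cIIIca
  have h3 := sum_tm_nonneg r w θ τ σ hr hw hθ hτ hσ L_cIIIcb
  have h4 := add_nonneg h2 h3
  rw [← h] at h4
  exact nonneg_of_mul_nonneg_right h4 (by norm_num)

/-- list of monomials -/
def L_cIVa : List (ℕ × ℕ × ℕ × ℕ × ℕ × ℕ) :=
   [(396581572821, 0, 0, 0, 6, 0), (1851600802896, 0, 0, 1, 5, 0),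
    (3176716308570, 0, 0, 2, 4, 0), (2355651314205, 0, 0, 3, 3, 0),
    (625694315490, 0, 0, 4, 2, 0), (12785345091, 0, 0, 5, 1, 0), (21045265311, 0, 0, 6, 0, 0),
    (631918604270, 1, 0, 0, 6, 0), (3170466173820, 1, 0, 1, 5, 0),
    (6263491270350, 1, 0, 2, 4, 0), (6270673072000, 1, 0, 3, 3, 0),
    (3507693275550, 1, 0, 4, 2, 0), (1196513173020, 1, 0, 5, 1, 0),
    (234549268670, 1, 0, 6, 0, 0), (426361382100, 2, 0, 0, 6, 0), (2253734247600, 2, 0, 1, 5, 0),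
    (4841277714000, 2, 0, 2, 4, 0), (5497459294500, 2, 0, 3, 3, 0),
    (3606530994000, 2, 0, 4, 2, 0), (1375292015100, 2, 0, 5, 1, 0),
    (252315467100, 2, 0, 6, 0, 0), (158007435000, 3, 0, 0, 6, 0), (868454010000, 3, 0, 1, 5, 0),
    (1969409625000, 3, 0, 2, 4, 0), (2391333900000, 3, 0, 3, 3, 0),
    (1675874025000, 3, 0, 4, 2, 0), (661159410000, 3, 0, 5, 1, 0), (117656235000, 3, 0, 6, 0, 0),
    (34763350000, 4, 0, 0, 6, 0), (196875600000, 4, 0, 1, 5, 0), (463328500000, 4, 0, 2, 4, 0),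
    (585529750000, 4, 0, 3, 3, 0), (424306500000, 4, 0, 4, 2, 0), (169539850000, 4, 0, 5, 1, 0),
    (29546850000, 4, 0, 6, 0, 0), (4544100000, 5, 0, 0, 6, 0), (26346600000, 5, 0, 1, 5, 0),
    (63664500000, 5, 0, 2, 4, 0), (82528000000, 5, 0, 3, 3, 0), (60916500000, 5, 0, 4, 2, 0),
    (24438600000, 5, 0, 5, 1, 0), (4188100000, 5, 0, 6, 0, 0), (327000000, 6, 0, 0, 6, 0),
    (1932000000, 6, 0, 1, 5, 0), (4760000000, 6, 0, 2, 4, 0), (6275000000, 6, 0, 3, 3, 0),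
    (4680000000, 6, 0, 4, 2, 0), (1877000000, 6, 0, 5, 1, 0), (317000000, 6, 0, 6, 0, 0),
    (10000000, 7, 0, 0, 6, 0), (60000000, 7, 0, 1, 5, 0), (150000000, 7, 0, 2, 4, 0),
    (200000000, 7, 0, 3, 3, 0), (150000000, 7, 0, 4, 2, 0), (60000000, 7, 0, 5, 1, 0),
    (10000000, 7, 0, 6, 0, 0), (62916369300, 0, 0, 0, 6, 1), (369539155800, 0, 0, 1, 5, 1),
    (910715440500, 0, 0, 2, 4, 1), (1217271901500, 0, 0, 3, 3, 1), (939169080000, 0, 0, 4, 2, 1),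
    (399186654300, 0, 0, 5, 1, 1), (73196821800, 0, 0, 6, 0, 1), (69641775000, 1, 0, 0, 6, 1),
    (413168850000, 1, 0, 1, 5, 1), (1026523665000, 1, 0, 2, 4, 1),
    (1375981020000, 1, 0, 3, 3, 1), (1055862945000, 1, 0, 4, 2, 1),
    (441883890000, 1, 0, 5, 1, 1), (79005375000, 1, 0, 6, 0, 1)]

/-- list of monomials -/
def L_cIVb : List (ℕ × ℕ × ℕ × ℕ × ℕ × ℕ) :=
   [(30431700000, 2, 0, 0, 6, 1), (181672200000, 2, 0, 1, 5, 1), (453446100000, 2, 0, 2, 4, 1),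
    (608190300000, 2, 0, 3, 3, 1), (464140800000, 2, 0, 4, 2, 1), (191724300000, 2, 0, 5, 1, 1),
    (33568200000, 2, 0, 6, 0, 1), (6579000000, 3, 0, 0, 6, 1), (39414000000, 3, 0, 1, 5, 1),
    (98589000000, 3, 0, 2, 4, 1), (132112000000, 3, 0, 3, 3, 1), (100257000000, 3, 0, 4, 2, 1),
    (40938000000, 3, 0, 5, 1, 1), (7039000000, 3, 0, 6, 0, 1), (705000000, 4, 0, 0, 6, 1),
    (4230000000, 4, 0, 1, 5, 1), (10585000000, 4, 0, 2, 4, 1), (14155000000, 4, 0, 3, 3, 1),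
    (10680000000, 4, 0, 4, 2, 1), (4315000000, 4, 0, 5, 1, 1), (730000000, 4, 0, 6, 0, 1),
    (30000000, 5, 0, 0, 6, 1), (180000000, 5, 0, 1, 5, 1), (450000000, 5, 0, 2, 4, 1),
    (600000000, 5, 0, 3, 3, 1), (450000000, 5, 0, 4, 2, 1), (180000000, 5, 0, 5, 1, 1),
    (30000000, 5, 0, 6, 0, 1), (3199230000, 0, 0, 0, 6, 2), (19975680000, 0, 0, 1, 5, 2),
    (52020000000, 0, 0, 2, 4, 2), (72307800000, 0, 0, 3, 3, 2), (56571750000, 0, 0, 4, 2, 2),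
    (23617080000, 0, 0, 5, 1, 2), (4109580000, 0, 0, 6, 0, 2), (2034900000, 1, 0, 0, 6, 2),
    (12515400000, 1, 0, 1, 5, 2), (32104500000, 1, 0, 2, 4, 2), (43962000000, 1, 0, 3, 3, 2),
    (33889500000, 1, 0, 4, 2, 2), (13943400000, 1, 0, 5, 1, 2), (2391900000, 1, 0, 6, 0, 2),
    (429000000, 2, 0, 0, 6, 2), (2604000000, 2, 0, 1, 5, 2), (6590000000, 2, 0, 2, 4, 2),
    (8900000000, 2, 0, 3, 3, 2), (6765000000, 2, 0, 4, 2, 2), (2744000000, 2, 0, 5, 1, 2),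
    (464000000, 2, 0, 6, 0, 2), (30000000, 3, 0, 0, 6, 2), (180000000, 3, 0, 1, 5, 2),
    (450000000, 3, 0, 2, 4, 2), (600000000, 3, 0, 3, 3, 2), (450000000, 3, 0, 4, 2, 2),
    (180000000, 3, 0, 5, 1, 2), (30000000, 3, 0, 6, 0, 2), (51000000, 0, 0, 0, 6, 3),
    (306000000, 0, 0, 1, 5, 3), (765000000, 0, 0, 2, 4, 3), (1020000000, 0, 0, 3, 3, 3),
    (765000000, 0, 0, 4, 2, 3), (306000000, 0, 0, 5, 1, 3), (51000000, 0, 0, 6, 0, 3),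
    (10000000, 1, 0, 0, 6, 3), (60000000, 1, 0, 1, 5, 3), (150000000, 1, 0, 2, 4, 3),
    (200000000, 1, 0, 3, 3, 3), (150000000, 1, 0, 4, 2, 3), (60000000, 1, 0, 5, 1, 3),
    (10000000, 1, 0, 6, 0, 3)]

theorem cIV (r w θ τ σ : ℝ) (hr : 0 ≤ r) (hw : 0 ≤ w) (hθ : 0 ≤ θ) (hτ : 0 ≤ τ)
    (hσ : 0 ≤ σ) (e1 : τ = 1 - θ) :
    0 ≤ Fk (51 / 10 + r) (θ * (51 / 10 + r)) ((51 / 10 + r) ^ 2 - (51 / 10 + r) + θ * (51 / 10 + r) + σ) - (51 / 10 + r) / 10 := by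
  have h : 2500000 * (Fk (51 / 10 + r) (θ * (51 / 10 + r)) ((51 / 10 + r) ^ 2 - (51 / 10 + r) + θ * (51 / 10 + r) + σ) - (51 / 10 + r) / 10) =
      ((L_cIVa).map (tm r w θ τ σ)).sum +
        ((L_cIVb).map (tm r w θ τ σ)).sum := by
    simp only [L_cIVa, L_cIVb, List.map_cons, List.map_nil, List.sum_cons, List.sum_nil, tm,
      Nat.cast_ofNat, pow_zero, pow_one, mul_one]
    rw [e1]
    unfold Fk
    ring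
  have h2 := sum_tm_nonneg r w θ τ σ hr hw hθ hτ hσ L_cIVa
  have h3 := sum_tm_nonneg r w θ τ σ hr hw hθ hτ hσ L_cIVb
  have h4 := add_nonneg h2 h3
  rw [← h] at h4
  exact nonneg_of_mul_nonneg_right h4 (by norm_num)

end Pool.Agent.Work.MP_8826fd_mp.K2
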